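import Pool.Agent.H334R2.CM.Defs
set_option autoImplicit false
open scoped Matrix MatrixGroups
universe u
namespace CM

namespace DIM1

variable {q : ℕ} [Fact q.Prime] {G : Type} [Group G] (D : BN q G)
  {k : Type u} [Field k]

/-- the element `n x` of the group algebra -/
noncomputable def nn (k : Type u) [Field k] (x : ZMod q) : MonoidAlgebra k G :=
  MonoidAlgebra.single (D.n x) 1

lemma n_zero : D.n 0 = 1 := by
  have h := D.n_add 0 0
  rw [add_zero] at h
  exact (left_eq_mul.mp h)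

lemma d_one : D.d 1 = 1 := by
  have h := D.d_mul 1 1
  rw [mul_one] at h
  exact (left_eq_mul.mp h)

lemma d_neg' (a : (ZMod q)ˣ) : D.d (-a) = D.d a := by
  have h := D.d_mul (-1) a
  rw [D.d_neg, one_mul, neg_one_mul] at h
  exact h

lemma nn_zero : nn D k 0 = 1 := by
  rw [nn, n_zero]
  rfl

lemma nn_mul (x y : ZMod q) : nn D k x * nn D k y = nn D k (x + y) := by
  rw [nn, nn, nn, MonoidAlgebra.single_mul_single, D.n_add, one_mul]

lemma gd_one : (gd D 1 : MonoidAlgebra k G) = 1 := by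
  rw [gd, d_one]
  rfl

lemma gd_mul (a b : (ZMod q)ˣ) : (gd D a * gd D b : MonoidAlgebra k G) = gd D (a * b) := by
  rw [gd, gd, gd, MonoidAlgebra.single_mul_single, D.d_mul, one_mul]

lemma gd_neg (a : (ZMod q)ˣ) : (gd D (-a) : MonoidAlgebra k G) = gd D a := by
  rw [gd, gd, d_neg']

lemma gd_nn (a : (ZMod q)ˣ) (x : ZMod q) :
    gd D a * nn D k x = nn D k ((a : ZMod q) ^ 2 * x) * gd D a := by
  rw [gd, nn, nn, MonoidAlgebra.single_mul_single, MonoidAlgebra.single_mul_single, D.dn]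

lemma nn_gd (a : (ZMod q)ˣ) (x : ZMod q) :
    nn D k x * gd D a = gd D a * nn D k (((a⁻¹ : (ZMod q)ˣ) : ZMod q) ^ 2 * x) := by
  rw [gd_nn, ← mul_assoc, ← mul_pow, Units.mul_inv, one_pow, one_mul]

variable (ψ : AddChar (ZMod q) k)

lemma eU_def (c : ZMod q) : eU D ψ c = ∑ x : ZMod q, ψ (-(c * x)) • nn D k x := by
  rw [eU]
  refine Finset.sum_congr rfl fun x _ => ?_
  rw [nn, MonoidAlgebra.smul_single, smul_eq_mul, mul_one]

lemma cast_odd {k : Type u} [Field k] [CharP k 2] {m : ℕ} (hm : Odd m) : (m : k) = 1 := by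
  obtain ⟨t, rfl⟩ := hm
  push_cast
  rw [CharTwo.two_eq_zero, zero_mul, zero_add]

lemma q_odd (hq : q ≠ 2) : Odd q := (Fact.out : q.Prime).odd_of_ne_two hq

lemma sum_psi [CharP k 2] (hq : q ≠ 2) (hψ : ψ.IsPrimitive) (b : ZMod q) :
    ∑ x : ZMod q, ψ (x * b) = if b = 0 then 1 else 0 := by
  rw [AddChar.sum_mulShift b hψ, ZMod.card]
  split_ifs
  · rw [cast_odd (q_odd hq)]
  · exact Nat.cast_zero

end DIM1

open DIM1

section
variable {q : ℕ} [Fact q.Prime] {G : Type} [Group G] (D : BN q G)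
  {k : Type u} [Field k] [CharP k 2] (ψ : AddChar (ZMod q) k)

theorem n_eU (c b : ZMod q) :
    MonoidAlgebra.single (D.n b) 1 * eU D ψ c = ψ (c * b) • eU D ψ c := by
  change nn D k b * _ = _
  rw [eU_def, Finset.mul_sum, Finset.smul_sum]
  rw [← Equiv.sum_comp (Equiv.addLeft b) (fun x => ψ (c * b) • ψ (-(c * x)) • nn D k x)]
  refine Finset.sum_congr rfl fun x _ => ?_
  rw [mul_smul_comm, nn_mul, smul_smul, ← AddChar.map_add_eq_mul]
  simp only [Equiv.coe_addLeft]
  congr 2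
  ring

theorem eU_n (c b : ZMod q) :
    eU D ψ c * MonoidAlgebra.single (D.n b) 1 = ψ (c * b) • eU D ψ c := by
  rw [← n_eU]
  change _ * nn D k b = nn D k b * _
  rw [eU_def, Finset.mul_sum, Finset.sum_mul]
  refine Finset.sum_congr rfl fun x _ => ?_
  rw [mul_smul_comm, smul_mul_assoc, nn_mul, nn_mul, add_comm]

theorem eU_mul (hq : q ≠ 2) (hψ : ψ.IsPrimitive) (c c' : ZMod q) :
    eU D ψ c * eU D ψ c' = if c = c' then eU D ψ c else 0 := by
  have h1 : eU D ψ c * eU D ψ c' = (∑ x : ZMod q, ψ (x * (c' - c))) • eU D ψ c' := by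
    rw [eU_def D ψ c, Finset.sum_mul, Finset.sum_smul]
    refine Finset.sum_congr rfl fun x _ => ?_
    rw [smul_mul_assoc]
    have := n_eU D ψ c' x
    change nn D k x * _ = _ at this
    rw [this, smul_smul, ← AddChar.map_add_eq_mul]
    congr 2
    ring
  rw [h1, sum_psi ψ hq hψ]
  by_cases h : c = c'
  · subst h
    simp
  · rw [if_neg h, if_neg (fun h' => h (sub_eq_zero.mp h').symm), zero_smul]

theorem sum_eU (hq : q ≠ 2) (hψ : ψ.IsPrimitive) : ∑ c, eU D ψ c = 1 := by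
  simp only [eU_def]
  rw [Finset.sum_comm]
  rw [Finset.sum_eq_single (0 : ZMod q)]
  · rw [← Finset.sum_smul]
    have : ∑ i : ZMod q, ψ (-(i * 0)) = 1 := by
      simp only [mul_zero, neg_zero, AddChar.map_zero_eq_one]
      rw [Finset.sum_const, Finset.card_univ, ZMod.card, nsmul_eq_mul, mul_one,
        cast_odd (q_odd hq)]
    rw [this, one_smul, nn_zero]
  · intro x _ hx
    rw [← Finset.sum_smul]
    have : ∑ i : ZMod q, ψ (-(i * x)) = 0 := by
      have h := sum_psi ψ hq hψ (-x)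
      rw [if_neg (neg_ne_zero.mpr hx)] at h
      rw [← h]
      refine Finset.sum_congr rfl fun i _ => ?_
      rw [mul_neg]
    rw [this, zero_smul]
  · intro h
    exact absurd (Finset.mem_univ _) h

theorem d_eU (a : (ZMod q)ˣ) (c : ZMod q) :
    gd D a * eU D ψ c = eU D ψ (c * ((a⁻¹ : (ZMod q)ˣ) : ZMod q) ^ 2) * gd D a := by
  rw [eU_def, eU_def, Finset.mul_sum, Finset.sum_mul]
  rw [← Equiv.sum_comp (Units.mulLeft (a ^ 2))
    (fun x => ψ (-(c * ((a⁻¹ : (ZMod q)ˣ) : ZMod q) ^ 2 * x)) • nn D k x * gd D a)]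
  refine Finset.sum_congr rfl fun x _ => ?_
  rw [mul_smul_comm, gd_nn, smul_mul_assoc]
  simp only [Units.mulLeft_apply, Units.val_pow_eq_pow_val]
  congr 3
  have h : ((a⁻¹ : (ZMod q)ˣ) : ZMod q) * (a : ZMod q) = 1 := Units.inv_mul a
  have h2 : ((a⁻¹ : (ZMod q)ˣ) : ZMod q) ^ 2 * (a : ZMod q) ^ 2 = 1 := by
    rw [← mul_pow, h, one_pow]
  linear_combination (-(c * x)) * h2
end

namespace DIM1

variable {q : ℕ} [Fact q.Prime] {G : Type} [Group G] (D : BN q G)
  {k : Type u} [Field k]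

lemma mem_Sq (a : (ZMod q)ˣ) : a ∈ Sq q ↔ IsSquare a := by
  classical
  rw [Sq, Finset.mem_filter]
  simp

lemma one_mem_Sq : (1 : (ZMod q)ˣ) ∈ Sq q := by
  rw [mem_Sq]
  exact ⟨1, by rw [mul_one]⟩

lemma mul_mem_Sq {a b : (ZMod q)ˣ} (ha : a ∈ Sq q) (hb : b ∈ Sq q) : a * b ∈ Sq q := by
  rw [mem_Sq] at *
  exact ha.mul hb

lemma inv_mem_Sq {a : (ZMod q)ˣ} (ha : a ∈ Sq q) : a⁻¹ ∈ Sq q := by
  rw [mem_Sq] at *
  exact ha.inv

lemma neg_one_not (hq : q % 4 = 3) : ¬ IsSquare (-1 : (ZMod q)ˣ) := by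
  rintro ⟨y, hy⟩
  have h : IsSquare (-1 : ZMod q) := ⟨(y : ZMod q), by
    have := congrArg Units.val hy
    simpa using this⟩
  rw [ZMod.exists_sq_eq_neg_one_iff] at h
  exact h hq

lemma sq_iff (a : (ZMod q)ˣ) : IsSquare a ↔ IsSquare (a : ZMod q) := by
  constructor
  · rintro ⟨y, hy⟩
    exact ⟨(y : ZMod q), by rw [hy, Units.val_mul]⟩
  · rintro ⟨y, hy⟩
    have hy0 : y ≠ 0 := by
      rintro rfl
      rw [mul_zero] at hy
      exact a.ne_zero hy
    exact ⟨Units.mk0 y hy0, Units.ext (by simpa using hy)⟩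

/-- every unit is plus or minus a square -/
lemma sq_or_neg (hq : q % 4 = 3) (a : (ZMod q)ˣ) : a ∈ Sq q ∨ -a ∈ Sq q := by
  rw [mem_Sq, mem_Sq, sq_iff, sq_iff]
  have hq2 : q ≠ 2 := by rintro rfl; norm_num at hq
  have h1 := quadraticChar_dichotomy (F := ZMod q) a.ne_zero
  have hc : ringChar (ZMod q) ≠ 2 := by
    rw [ZMod.ringChar_zmod_n]; exact hq2
  have hm : quadraticChar (ZMod q) (-1) = -1 := by
    rw [quadraticChar_neg_one_iff_not_isSquare]
    rw [ZMod.exists_sq_eq_neg_one_iff]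
    push Not
    exact hq
  rcases h1 with h1 | h1
  · left
    exact (quadraticChar_one_iff_isSquare a.ne_zero).mp h1
  · right
    have h2 : quadraticChar (ZMod q) (-(a : ZMod q)) = 1 := by
      rw [← neg_one_mul, map_mul, hm, h1]
      norm_num
    rw [Units.val_neg]
    exact (quadraticChar_one_iff_isSquare (neg_ne_zero.mpr a.ne_zero)).mp h2

lemma neg_not_mem {a : (ZMod q)ˣ} (hq : q % 4 = 3) (ha : a ∈ Sq q) : -a ∉ Sq q := by
  intro h
  apply neg_one_not hq
  have := mul_mem_Sq h (inv_mem_Sq ha)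
  rw [neg_mul, mul_inv_cancel, mem_Sq] at this
  exact this

lemma card_Sq (hq : q % 4 = 3) : 2 * (Sq q).card = q - 1 := by
  classical
  have h1 : (Finset.univ : Finset (ZMod q)ˣ) = Sq q ∪ (Sq q).image (fun a => -a) := by
    ext a
    simp only [Finset.mem_univ, Finset.mem_union, Finset.mem_image, true_iff]
    rcases sq_or_neg hq a with h | h
    · exact Or.inl h
    · exact Or.inr ⟨-a, h, neg_neg a⟩
  have h2 : Disjoint (Sq q) ((Sq q).image (fun a => -a)) := by
    rw [Finset.disjoint_left]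
    intro a ha hb
    obtain ⟨b, hb', rfl⟩ := Finset.mem_image.mp hb
    exact neg_not_mem hq hb' ha
  have h3 := congrArg Finset.card h1
  rw [Finset.card_union_of_disjoint h2, Finset.card_image_of_injective _ neg_injective,
    Finset.card_univ, ZMod.card_units] at h3
  omega

lemma card_Sq_odd (hq : q % 4 = 3) : Odd (Sq q).card := by
  have := card_Sq hq
  rw [Nat.odd_iff]
  have hq1 : 1 ≤ q := (Fact.out : q.Prime).one_lt.le
  omega

lemma l_neg_one {k : Type u} [Field k] [CharP k 2] (l : (ZMod q)ˣ →* kˣ) : l (-1) = 1 := by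
  have h : l (-1) * l (-1) = 1 := by
    rw [← map_mul, neg_mul_neg, mul_one, map_one]
  have h2 : (((l (-1) : kˣ) : k) - 1) * (((l (-1) : kˣ) : k) - 1) = 0 := by
    have h3 := congrArg Units.val h
    rw [Units.val_mul, Units.val_one] at h3
    have h4 : (2 : k) = 0 := CharTwo.two_eq_zero
    linear_combination h3 - (((l (-1) : kˣ) : k) - 1) * h4
  have h5 := mul_self_eq_zero.mp h2
  exact Units.ext (by rw [Units.val_one]; exact sub_eq_zero.mp h5)

lemma l_neg {k : Type u} [Field k] [CharP k 2] (l : (ZMod q)ˣ →* kˣ) (a : (ZMod q)ˣ) :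
    l (-a) = l a := by
  rw [← neg_one_mul, map_mul, l_neg_one, one_mul]

/-- the sum over the unipotent group -/
noncomputable def nS (k : Type u) [Field k] : MonoidAlgebra k G := ∑ x : ZMod q, nn D k x

lemma nS_eq (ψ : AddChar (ZMod q) k) : eU D ψ 0 = nS D k := by
  rw [eU_def, nS]
  refine Finset.sum_congr rfl fun x _ => ?_
  rw [zero_mul, neg_zero, AddChar.map_zero_eq_one, one_smul]

lemma nn_nS (x : ZMod q) : nn D k x * nS D k = nS D k := by
  rw [nS, Finset.mul_sum, ← Equiv.sum_comp (Equiv.addLeft x) (fun y => nn D k y)]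
  refine Finset.sum_congr rfl fun y _ => ?_
  rw [nn_mul]
  rfl

lemma nS_nn (x : ZMod q) : nS D k * nn D k x = nS D k := by
  rw [nS, Finset.sum_mul, ← Equiv.sum_comp (Equiv.addRight x) (fun y => nn D k y)]
  refine Finset.sum_congr rfl fun y _ => ?_
  rw [nn_mul]
  rfl

lemma gd_nS (a : (ZMod q)ˣ) : gd D a * nS D k = nS D k * gd D a := by
  rw [nS, Finset.mul_sum, Finset.sum_mul,
    ← Equiv.sum_comp (Units.mulLeft (a ^ 2)) (fun y => nn D k y * gd D a)]
  refine Finset.sum_congr rfl fun y _ => ?_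
  rw [gd_nn]
  simp only [Units.mulLeft_apply, Units.val_pow_eq_pow_val]

lemma eB_def (l : (ZMod q)ˣ →* kˣ) :
    eB D l = (∑ a ∈ Sq q, (((l a)⁻¹ : kˣ) : k) • gd D a) * nS D k := by
  rw [eB, Finset.sum_mul]
  refine Finset.sum_congr rfl fun a _ => ?_
  rw [nS, Finset.mul_sum]
  refine Finset.sum_congr rfl fun x _ => ?_
  rw [gd, nn, smul_mul_assoc, MonoidAlgebra.single_mul_single, MonoidAlgebra.smul_single,
    smul_eq_mul, mul_one, mul_one]

/-- the sum over the diagonal group -/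
noncomputable def dS (l : (ZMod q)ˣ →* kˣ) : MonoidAlgebra k G :=
  ∑ a ∈ Sq q, (((l a)⁻¹ : kˣ) : k) • gd D a

lemma eB_dS (l : (ZMod q)ˣ →* kˣ) : eB D l = dS D l * nS D k := eB_def D l

lemma dS_nS (l : (ZMod q)ˣ →* kˣ) : dS D l * nS D k = nS D k * dS D l := by
  rw [dS, Finset.sum_mul, Finset.mul_sum]
  refine Finset.sum_congr rfl fun a _ => ?_
  rw [smul_mul_assoc, mul_smul_comm, gd_nS]

lemma gd_dS_sq (l : (ZMod q)ˣ →* kˣ) {a : (ZMod q)ˣ} (ha : a ∈ Sq q) :
    gd D a * dS D l = (l a : k) • dS D l := by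
  rw [dS, Finset.mul_sum, Finset.smul_sum]
  refine Finset.sum_bij' (fun b _ => a * b) (fun b _ => a⁻¹ * b) ?_ ?_ ?_ ?_ ?_
  · intro b hb; exact mul_mem_Sq ha hb
  · intro b hb; exact mul_mem_Sq (inv_mem_Sq ha) hb
  · intro b _; rw [inv_mul_cancel_left]
  · intro b _; rw [mul_inv_cancel_left]
  · intro b _
    rw [mul_smul_comm, gd_mul, smul_smul, ← Units.val_mul, map_mul, mul_inv, mul_inv_cancel_left]

lemma dS_gd (l : (ZMod q)ˣ →* kˣ) (a : (ZMod q)ˣ) : dS D l * gd D a = gd D a * dS D l := by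
  rw [dS, Finset.mul_sum, Finset.sum_mul]
  refine Finset.sum_congr rfl fun b _ => ?_
  rw [smul_mul_assoc, mul_smul_comm, gd_mul, gd_mul, mul_comm]

lemma gd_dS [CharP k 2] (hq : q % 4 = 3) (l : (ZMod q)ˣ →* kˣ) (a : (ZMod q)ˣ) :
    gd D a * dS D l = (l a : k) • dS D l := by
  rcases sq_or_neg hq a with h | h
  · exact gd_dS_sq D l h
  · have := gd_dS_sq D l h
    rwa [gd_neg, l_neg] at this

end DIM1

section
variable {q : ℕ} [Fact q.Prime] {G : Type} [Group G] (D : BN q G)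
  {k : Type u} [Field k] [CharP k 2] (ψ : AddChar (ZMod q) k)
variable (l : (ZMod q)ˣ →* kˣ)

theorem d_eB (hq : q % 4 = 3) (a : (ZMod q)ˣ) : gd D a * eB D l = (l a : k) • eB D l := by
  rw [eB_dS, ← mul_assoc, gd_dS D hq, smul_mul_assoc]

theorem eB_d (hq : q % 4 = 3) (a : (ZMod q)ˣ) : eB D l * gd D a = (l a : k) • eB D l := by
  rw [eB_dS, mul_assoc, ← gd_nS, ← mul_assoc, dS_gd, gd_dS D hq, smul_mul_assoc]

theorem n_eB (x : ZMod q) : MonoidAlgebra.single (D.n x) 1 * eB D l = eB D l := by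
  change nn D k x * _ = _
  rw [eB_dS, dS_nS, ← mul_assoc, nn_nS]

theorem eB_n (x : ZMod q) : eB D l * MonoidAlgebra.single (D.n x) 1 = eB D l := by
  change _ * nn D k x = _
  rw [eB_dS, mul_assoc, nS_nn]

end

namespace DIM1

variable {q : ℕ} [Fact q.Prime] {G : Type} [Group G] (D : BN q G)
  {k : Type u} [Field k]

lemma nS_sq [CharP k 2] (hq : q ≠ 2) : nS D k * nS D k = nS D k := by
  have h : nS D k * nS D k = ∑ x : ZMod q, nn D k x * nS D k := by
    rw [← Finset.sum_mul]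
    rfl
  rw [h]
  simp only [nn_nS]
  rw [Finset.sum_const, Finset.card_univ, ZMod.card, ← Nat.cast_smul_eq_nsmul k,
    cast_odd (q_odd hq), one_smul]

/-- the sum of a nontrivial character over the squares is zero -/
lemma sum_char [CharP k 2] (hq : q % 4 = 3) (χ : (ZMod q)ˣ →* kˣ) :
    ∑ a ∈ Sq q, (χ a : k) = open Classical in if χ = 1 then 1 else 0 := by
  classical
  split_ifs with h
  · subst h
    simp only [MonoidHom.one_apply, Units.val_one, Finset.sum_const, nsmul_eq_mul, mul_one]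
    exact cast_odd (card_Sq_odd hq)
  · have hb : ∃ b ∈ Sq q, χ b ≠ 1 := by
      by_contra hcon
      push Not at hcon
      apply h
      ext b
      rcases sq_or_neg hq b with hb | hb
      · rw [hcon b hb]; rfl
      · rw [← l_neg, hcon _ hb]; rfl
    obtain ⟨b, hb, hχ⟩ := hb
    have h1 : (χ b : k) * ∑ a ∈ Sq q, (χ a : k) = ∑ a ∈ Sq q, (χ a : k) := by
      rw [Finset.mul_sum]
      refine Finset.sum_bij' (fun a _ => b * a) (fun a _ => b⁻¹ * a) ?_ ?_ ?_ ?_ ?_
      · intro a ha; exact mul_mem_Sq hb ha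
      · intro a ha; exact mul_mem_Sq (inv_mem_Sq hb) ha
      · intro a _; rw [inv_mul_cancel_left]
      · intro a _; rw [mul_inv_cancel_left]
      · intro a _; rw [map_mul, Units.val_mul]
    have h2 : ((χ b : k) - 1) * ∑ a ∈ Sq q, (χ a : k) = 0 := by
      rw [sub_mul, one_mul, h1, sub_self]
    rcases mul_eq_zero.mp h2 with h3 | h3
    · exact absurd (Units.ext (by rw [Units.val_one]; exact sub_eq_zero.mp h3)) hχ
    · exact h3

end DIM1

section
variable {q : ℕ} [Fact q.Prime] {G : Type} [Group G] (D : BN q G)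
  {k : Type u} [Field k] [CharP k 2] (ψ : AddChar (ZMod q) k)
variable (l : (ZMod q)ˣ →* kˣ)

theorem eB_mul (hq : q % 4 = 3) (l' : (ZMod q)ˣ →* kˣ) :
    eB D l * eB D l' = open Classical in if l = l' then eB D l else 0 := by
  classical
  have hq2 : q ≠ 2 := by rintro rfl; norm_num at hq
  have h1 : eB D l * eB D l' = (∑ a ∈ Sq q, ((l⁻¹ * l') a : k)) • eB D l' := by
    rw [eB_dS D l, eB_dS D l', mul_assoc, ← mul_assoc (nS D k), ← dS_nS, mul_assoc (dS D l'),
      nS_sq D hq2, ← mul_assoc, dS, Finset.sum_mul, Finset.sum_mul, Finset.sum_smul]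
    refine Finset.sum_congr rfl fun a _ => ?_
    rw [smul_mul_assoc, gd_dS D hq, smul_smul, smul_mul_assoc, MonoidHom.mul_apply,
      MonoidHom.inv_apply, Units.val_mul]
  rw [h1, sum_char hq]
  by_cases h : l = l'
  · subst h
    rw [if_pos rfl, if_pos (inv_mul_cancel l), one_smul]
  · rw [if_neg h, if_neg (fun h' => h (inv_mul_eq_one.mp h')), zero_smul]

theorem eU_eB (hq : q ≠ 2) (hψ : ψ.IsPrimitive) (c : ZMod q) :
    eU D ψ c * eB D l = if c = 0 then eB D l else 0 := by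
  have h1 : eU D ψ c * eB D l = (∑ x : ZMod q, ψ (x * (-c))) • eB D l := by
    rw [eU_def, Finset.sum_mul, Finset.sum_smul]
    refine Finset.sum_congr rfl fun x _ => ?_
    rw [smul_mul_assoc]
    have := n_eB D l x
    change nn D k x * _ = _ at this
    rw [this, mul_neg, mul_comm]
  rw [h1, sum_psi ψ hq hψ]
  simp only [neg_eq_zero, ite_smul, one_smul, zero_smul]

theorem eB_eU (hq : q ≠ 2) (hψ : ψ.IsPrimitive) (c : ZMod q) :
    eB D l * eU D ψ c = if c = 0 then eB D l else 0 := by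
  have h1 : eB D l * eU D ψ c = (∑ x : ZMod q, ψ (x * (-c))) • eB D l := by
    rw [eU_def, Finset.mul_sum, Finset.sum_smul]
    refine Finset.sum_congr rfl fun x _ => ?_
    rw [mul_smul_comm]
    have := eB_n D l x
    change _ * nn D k x = _ at this
    rw [this, mul_neg, mul_comm]
  rw [h1, sum_psi ψ hq hψ]
  simp only [neg_eq_zero, ite_smul, one_smul, zero_smul]

end

namespace DIM1

variable {q : ℕ} [Fact q.Prime]

/-- the group of squares -/
noncomputable def SG (q : ℕ) [Fact q.Prime] : Subgroup (ZMod q)ˣ where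
  carrier := {a | a ∈ Sq q}
  mul_mem' := fun ha hb => mul_mem_Sq ha hb
  one_mem' := one_mem_Sq
  inv_mem' := fun ha => inv_mem_Sq ha

lemma mem_SG (a : (ZMod q)ˣ) : a ∈ SG q ↔ a ∈ Sq q := Iff.rfl

lemma card_SG : Nat.card (SG q) = (Sq q).card := by
  have h : ∀ x, x ∈ Sq q ↔ x ∈ SG q := fun x => Iff.rfl
  rw [← Nat.card_congr (Equiv.subtypeEquivRight h), Nat.card_eq_fintype_card, Fintype.card_coe]

lemma even_pow_mem (hq : q % 4 = 3) (u : (ZMod q)ˣ) : u ^ ((Sq q).card + 1) ∈ SG q := by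
  rw [mem_SG, mem_Sq]
  obtain ⟨t, ht⟩ := card_Sq_odd (q := q) hq
  exact ⟨u ^ (t + 1), by rw [← pow_add]; congr 1; omega⟩

lemma pow_eq {a : (ZMod q)ˣ} (ha : a ∈ SG q) : a ^ ((Sq q).card + 1) = a := by
  have h : (⟨a, ha⟩ : SG q) ^ Nat.card (SG q) = 1 := pow_card_eq_one'
  rw [card_SG] at h
  have h2 := congrArg Subtype.val h
  simp only [SubmonoidClass.coe_pow, OneMemClass.coe_one] at h2
  rw [pow_succ, h2, one_mul]

/-- the projection to the squares -/
noncomputable def proj (hq : q % 4 = 3) : (ZMod q)ˣ →* SG q where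
  toFun u := ⟨u ^ ((Sq q).card + 1), even_pow_mem hq u⟩
  map_one' := Subtype.ext (one_pow _)
  map_mul' a b := Subtype.ext (mul_pow a b _)

/-- characters of the units and of the squares -/
noncomputable def homEquiv {k : Type u} [Field k] [CharP k 2] (hq : q % 4 = 3) :
    ((ZMod q)ˣ →* kˣ) ≃ (SG q →* kˣ) where
  toFun l := l.comp (SG q).subtype
  invFun φ := φ.comp (proj hq)
  left_inv l := by
    apply MonoidHom.ext
    intro u
    change l (u ^ ((Sq q).card + 1)) = l u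
    rcases sq_or_neg hq u with h | h
    · rw [pow_eq h]
    · have h2 : (-u) ^ ((Sq q).card + 1) = -u := pow_eq h
      have h3 : Even ((Sq q).card + 1) := (card_Sq_odd hq).add_one
      rw [h3.neg_pow] at h2
      rw [h2, l_neg]
  right_inv φ := by
    apply MonoidHom.ext
    intro s
    change φ (proj hq s.1) = φ s
    congr 1
    exact Subtype.ext (pow_eq s.2)

lemma enough {k : Type u} [Field k] [CharP k 2] [IsAlgClosed k] (hq : q % 4 = 3) :
    HasEnoughRootsOfUnity k (Monoid.exponent (SG q)) := by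
  have h1 : Monoid.exponent (SG q) ∣ (Sq q).card := by
    rw [← card_SG]
    exact Group.exponent_dvd_nat_card
  have h2 : Odd (Monoid.exponent (SG q)) := (card_Sq_odd hq).of_dvd_nat h1
  have : NeZero ((Monoid.exponent (SG q) : ℕ) : k) := ⟨by
    rw [cast_odd h2]; exact one_ne_zero⟩
  infer_instance

lemma card_hom {k : Type u} [Field k] [CharP k 2] [IsAlgClosed k] (hq : q % 4 = 3) :
    Nat.card ((ZMod q)ˣ →* kˣ) = (Sq q).card := by
  have := enough (q := q) (k := k) hq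
  rw [Nat.card_congr (homEquiv (k := k) hq),
    CommGroup.card_monoidHom_of_hasEnoughRootsOfUnity, card_SG]

lemma exists_hom {k : Type u} [Field k] [CharP k 2] [IsAlgClosed k] (hq : q % 4 = 3)
    {a : (ZMod q)ˣ} (ha : a ∈ Sq q) (h1 : a ≠ 1) : ∃ l : (ZMod q)ˣ →* kˣ, l a ≠ 1 := by
  have := enough (q := q) (k := k) hq
  obtain ⟨φ, hφ⟩ := CommGroup.exists_apply_ne_one_of_hasEnoughRootsOfUnity (SG q) k
    (a := (⟨a, ha⟩ : SG q)) (fun h => h1 (congrArg Subtype.val h))
  refine ⟨φ.comp (proj hq), ?_⟩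
  have : proj hq a = ⟨a, ha⟩ := Subtype.ext (pow_eq (show a ∈ SG q from ha))
  rw [MonoidHom.comp_apply, this]
  exact hφ

end DIM1

section
variable {q : ℕ} [Fact q.Prime] {G : Type} [Group G] (D : BN q G)
  {k : Type u} [Field k] [CharP k 2] (ψ : AddChar (ZMod q) k)

theorem sum_eB [IsAlgClosed k] (hq : q % 4 = 3) :
    ∑ᶠ l : (ZMod q)ˣ →* kˣ, eB D l = eU D ψ 0 := by
  classical
  have hc := card_hom (q := q) (k := k) hq
  have hodd := card_Sq_odd (q := q) hq
  have hfin : Finite ((ZMod q)ˣ →* kˣ) := by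
    apply Nat.finite_of_card_ne_zero
    rw [hc]
    exact hodd.pos.ne'
  have := Fintype.ofFinite ((ZMod q)ˣ →* kˣ)
  rw [finsum_eq_sum_of_fintype, nS_eq]
  simp only [eB_def]
  rw [← Finset.sum_mul, Finset.sum_comm]
  have h1 : ∀ a ∈ Sq q, ∑ l : (ZMod q)ˣ →* kˣ, (((l a)⁻¹ : kˣ) : k) • (gd D a : MonoidAlgebra k G)
      = if a = 1 then gd D a else 0 := by
    intro a ha
    rw [← Finset.sum_smul]
    split_ifs with h
    · subst h
      simp only [map_one, inv_one, Units.val_one, Finset.sum_const, nsmul_eq_mul, mul_one]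
      rw [Finset.card_univ, ← Nat.card_eq_fintype_card, hc, cast_odd hodd, one_smul]
    · obtain ⟨l0, hl0⟩ := exists_hom (k := k) hq ha h
      have h2 : ((l0 a : kˣ) : k) * ∑ l : (ZMod q)ˣ →* kˣ, (((l a)⁻¹ : kˣ) : k)
          = ∑ l : (ZMod q)ˣ →* kˣ, (((l a)⁻¹ : kˣ) : k) := by
        rw [Finset.mul_sum,
          ← Equiv.sum_comp (Equiv.mulLeft l0) (fun l => ((l0 a : kˣ) : k) * (((l a)⁻¹ : kˣ) : k))]
        refine Finset.sum_congr rfl fun l _ => ?_
        rw [Equiv.coe_mulLeft, MonoidHom.mul_apply, ← Units.val_mul, mul_inv, mul_inv_cancel_left]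
      have h3 : (((l0 a : kˣ) : k) - 1) * ∑ l : (ZMod q)ˣ →* kˣ, (((l a)⁻¹ : kˣ) : k) = 0 := by
        rw [sub_mul, one_mul, h2, sub_self]
      rcases mul_eq_zero.mp h3 with h4 | h4
      · exact absurd (Units.ext (by rw [Units.val_one]; exact sub_eq_zero.mp h4)) hl0
      · rw [h4, zero_smul]
  rw [Finset.sum_congr rfl h1, Finset.sum_ite_eq', if_pos one_mem_Sq, gd_one, one_mul]

end

end CM
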